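import Pool.Agent.TDV.StmtsD
import Pool.Agent.Helper56_Tail.Meas
import Pool.Agent.Helper56_Tail.Game

/-!
# Squad TDV, module CTL: every game is equivalent to a game with a tail set, in a Borel way
-/

set_option autoImplicit false

namespace Pool.Agent.TDV.H56

open Pool.Agent.TDV Pool.Agent.Helper56Tail

theorem winsI_same (A : Set (ℕ → Bool)) : Helper25TD.WinsI A ↔ Helper56Tail.WinsI A := Iff.rfl

theorem winsII_same (A : Set (ℕ → Bool)) : Helper25TD.WinsII A ↔ Helper56Tail.WinsII A := Iff.rfl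

theorem ctl : CtlStmt := by
  refine ⟨Helper56Tail.RR, SS, play, measurable_RR, measurable_SS, measurable_play, fun B => ⟨?_, ?_, ?_⟩⟩
  · rintro x y ⟨m, hm⟩ hx
    exact tailSet_TT B x y hx ⟨m, fun n hn => hm n hn⟩
  · change Helper56Tail.WinsI (TT B) ↔ Helper56Tail.WinsI B
    rw [winsI_iff, winsI_iff]
    exact ⟨winsP_of_TT (by norm_num), winsP_TT (by norm_num)⟩
  · change Helper56Tail.WinsII (TT B) ↔ Helper56Tail.WinsII B
    rw [winsII_iff, winsII_iff]
    exact ⟨winsP_of_TT (by norm_num), winsP_TT (by norm_num)⟩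

end Pool.Agent.TDV.H56
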