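import Pool.Agent.Helper56_TDV.Like

/-!
# The coded game has the same winner
-/

set_option autoImplicit false

namespace Pool.Agent.Helper56.TDV

open Pool.Agent.TDV Pool.Agent.Helper56Tail

/-- the position which codes the bit number `j` -/
def pos (j : ℕ) : ℕ := 2 * j * j + 2 * j + j % 2

theorem w_le_pos (j : ℕ) : w j ≤ pos j := by
  unfold w pos
  omega

theorem pos_lt (j : ℕ) : pos j < w (j + 1) := by
  unfold w pos
  have h := Nat.mod_lt j (by norm_num : 2 > 0)
  have h2 : 2 * (j + 1) * (j + 1) = 2 * j * j + 4 * j + 2 := by ring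
  omega

theorem pos_mod (j : ℕ) : pos j % 2 = j % 2 := by
  unfold pos
  have h : 2 * j * j + 2 * j + j % 2 = 2 * (j * j + j) + j % 2 := by ring
  rw [h, Nat.mul_add_mod, Nat.mod_mod]

theorem pos_unique {j j' : ℕ} (h1 : w j' ≤ pos j) (h2 : pos j < w (j' + 1)) : j = j' :=
  win_unique (w_le_pos j) (pos_lt j) h1 h2

theorem pos_inj {j j' : ℕ} (h : pos j = pos j') : j = j' :=
  pos_unique (by rw [h]; exact w_le_pos j') (by rw [h]; exact pos_lt j')

theorem deep_pos {j K : ℕ} (h : K ≤ j) : Deep j K (pos j) := by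
  refine ⟨j, rfl, ?_, ?_⟩
  · unfold w pos
    omega
  · unfold w pos
    have h1 := Nat.mod_lt j (by norm_num : 2 > 0)
    have h2 : 2 * (j + 1) * (j + 1) = 2 * j * j + 4 * j + 2 := by ring
    omega

theorem Deep.mod {r r' K m : ℕ} (h : r % 2 = r' % 2) (hd : Deep r K m) : Deep r' K m := by
  obtain ⟨j, h1, h2, h3⟩ := hd
  exact ⟨j, h1.trans h, h2, h3⟩

open Classical in
/-- the naive decoding -/
noncomputable def dec (x : ℕ → Bool) : ℕ → Bool :=
  fun j => decide (∃ m, w j ≤ m ∧ m < w (j + 1) ∧ m % 2 = j % 2 ∧ x m ≠ dflt j)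

open Classical in
theorem dec_iff (x : ℕ → Bool) (j : ℕ) : dec x j = true ↔
    ∃ m, w j ≤ m ∧ m < w (j + 1) ∧ m % 2 = j % 2 ∧ x m ≠ dflt j := by
  unfold dec
  rw [decide_eq_true_iff]

theorem dec_congr {x y : ℕ → Bool} {j : ℕ} (h : ∀ i < w (j + 1), x i = y i) :
    dec x j = dec y j := by
  rw [Bool.eq_iff_iff, dec_iff, dec_iff]
  constructor
  · rintro ⟨m, h1, h2, h3, h4⟩
    exact ⟨m, h1, h2, h3, by rwa [← h m h2]⟩
  · rintro ⟨m, h1, h2, h3, h4⟩
    exact ⟨m, h1, h2, h3, by rwa [h m h2]⟩

/-- if all exceptional points of player `r` are at coding positions then his class is good -/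
theorem like_of_pos {r : ℕ} {x : ℕ → Bool}
    (h : ∀ m, m % 2 = r % 2 → x m ≠ dflt r → ∃ j, pos j = m) : Like r x 1 r := by
  intro K
  refine ⟨w K, fun m h1 h2 h3 => ?_⟩
  rw [pow_one] at h2
  obtain ⟨j, rfl⟩ := h m h2 h3
  have h4 : K < j + 1 := w_mono.lt_iff_lt.mp (h1.trans_lt (pos_lt j))
  refine (deep_pos (show K ≤ j by omega)).mod ?_
  rw [← pos_mod, h2]

open Classical in
theorem rp_of_like {r : ℕ} (hr : r < 2) {x : ℕ → Bool} (h : Like r x 1 r) : x ∈ RP r := by
  refine ⟨1, ?_⟩
  have h1 : r ∈ (Finset.range (2 ^ 1)).filter fun i => Like r x 1 i := by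
    rw [Finset.mem_filter, Finset.mem_range]
    exact ⟨by omega, h⟩
  have h2 : 0 < cnt r x 1 := Finset.card_pos.mpr ⟨r, h1⟩
  omega

open Classical in
/-- the parity decides the kind if both players obey -/
theorem lk_parity {r : ℕ} (hr : r < 2) {x : ℕ → Bool} (h : Like r x 1 r) (h' : x ∈ RP (1 - r))
    {r' : ℕ} (hr' : r' < 2) (m : ℕ) : Lk r' x m ↔ m % 2 = r' := by
  obtain ⟨N, hN⟩ := h'
  have hN' : 2 ^ (N + 1) ≤ 2 * cnt (1 - r) x (N + 1) := half_up (Nat.le_succ N) hN
  have hpar : ∀ i : ℕ, i % 2 ^ (N + 1) % 2 = i % 2 := fun i =>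
    Nat.mod_mod_of_dvd i (Dvd.intro_left (2 ^ N) rfl)
  have hmine : ∀ i : ℕ, i % 2 = r → Like r x (N + 1) i := by
    intro i hi
    refine (h.congr ?_).up (by omega)
    rw [pow_one, hi, Nat.mod_eq_of_lt hr]
  -- the classes of the opponent
  set S := (Finset.range (2 ^ (N + 1))).filter fun i => Like (1 - r) x (N + 1) i with hS
  set E := (Finset.range (2 ^ (N + 1))).filter fun i => i % 2 = 1 - r with hE
  have hSE : S ⊆ E := by
    intro i hi
    rw [hS, Finset.mem_filter] at hi
    rw [hE, Finset.mem_filter]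
    refine ⟨hi.1, ?_⟩
    by_contra hne
    exact not_both' hr (hmine i (by omega)) hi.2
  have hEcard : E.card ≤ 2 ^ N := by
    have h1 : E.card ≤ (Finset.range (2 ^ N)).card := by
      refine Finset.card_le_card_of_injOn (fun i => i / 2) ?_ ?_
      · intro i hi
        rw [hE, Finset.mem_coe, Finset.mem_filter, Finset.mem_range] at hi
        rw [Finset.mem_coe, Finset.mem_range]
        have h2 : 2 ^ (N + 1) = 2 ^ N * 2 := by ring
        change i / 2 < 2 ^ N
        omega
      · intro i hi i' hi' hii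
        rw [hE, Finset.mem_coe, Finset.mem_filter] at hi hi'
        simp only at hii
        omega
    rwa [Finset.card_range] at h1
  have hScard : E.card ≤ S.card := by
    have h2 : S.card = cnt (1 - r) x (N + 1) := rfl
    have h3 : 2 ^ (N + 1) = 2 * 2 ^ N := by ring
    omega
  have heq : S = E := Finset.eq_of_subset_of_card_le hSE hScard
  have hother : ∀ i : ℕ, i % 2 = 1 - r → Like (1 - r) x (N + 1) i := by
    intro i hi
    have h1 : i % 2 ^ (N + 1) ∈ E := by
      rw [hE, Finset.mem_filter, Finset.mem_range]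
      exact ⟨Nat.mod_lt _ (by positivity), by rw [hpar, hi]⟩
    rw [← heq, hS, Finset.mem_filter] at h1
    exact h1.2.congr (Nat.mod_mod _ _)
  have hfor : ∀ i : ℕ, ∀ r'' < 2, i % 2 = r'' → Like r'' x (N + 1) i := by
    intro i r'' hr'' hi
    by_cases hrr : r'' = r
    · subst hrr
      exact hmine i hi
    · have : r'' = 1 - r := by omega
      subst this
      exact hother i hi
  constructor
  · rintro ⟨N', hN''⟩
    by_contra hne
    have h1 := hfor m (1 - r') (by omega) (by omega)
    exact not_both' hr' (hN''.up (le_max_left N' (N + 1))) (h1.up (le_max_right N' (N + 1)))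
  · intro hm
    exact ⟨N + 1, hfor m r' hr' hm⟩

theorem F_eq_dec {r : ℕ} (hr : r < 2) {x : ℕ → Bool} (h : Like r x 1 r) (h' : x ∈ RP (1 - r)) :
    F x = dec x := by
  funext j
  rw [Bool.eq_iff_iff, F_iff, dec_iff]
  have hj := Nat.mod_lt j (by norm_num : 2 > 0)
  simp only [lk_parity hr h h' hj]

theorem win_of {r : ℕ} (hr : r < 2) {B : Set (ℕ → Bool)} {x : ℕ → Bool} (h : x ∈ RP r)
    (h' : x ∈ RP (1 - r) → Win r B (F x)) : Win r (AA B) x := by
  interval_cases r
  · simp only [Win, if_true] at h' ⊢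
    by_cases h1 : x ∈ RP 1
    · exact Or.inr ⟨⟨h, h1⟩, h' h1⟩
    · exact Or.inl ⟨h, h1⟩
  · simp only [Win, one_ne_zero, if_false] at h' ⊢
    rintro (⟨-, h1⟩ | ⟨⟨h0, -⟩, h2⟩)
    · exact h1 h
    · exact h' h0 h2

theorem win_other {r : ℕ} (hr : r < 2) {B : Set (ℕ → Bool)} {x : ℕ → Bool} (h : x ∈ RP (1 - r))
    (h' : Win r (AA B) x) : x ∈ RP r ∧ Win r B (F x) := by
  interval_cases r
  · simp only [Win, if_true] at h' ⊢
    rcases h' with ⟨-, h1⟩ | ⟨⟨h0, -⟩, h2⟩
    · exact absurd h h1
    · exact ⟨h0, h2⟩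
  · simp only [Win, one_ne_zero, if_false] at h' ⊢
    have h1 : x ∈ RP 1 := by
      by_contra h1
      exact h' (Or.inl ⟨h, h1⟩)
    exact ⟨h1, fun h2 => h' (Or.inr ⟨⟨h, h1⟩, h2⟩)⟩

/-! ### from the game to the coded game -/

open Classical in
/-- the coded strategy -/
noncomputable def cst (r : ℕ) (σ : List Bool → Bool) (p : List Bool) : Bool :=
  if ∃ j, pos j = p.length ∧ σ (pre (dec fun i => p.getD i false) j) = true then !(dflt r)
  else dflt r

open Classical in
theorem cst_pre (r : ℕ) (σ : List Bool → Bool) (x : ℕ → Bool) (m : ℕ) :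
    cst r σ (pre x m) ≠ dflt r ↔ ∃ j, pos j = m ∧ σ (pre (dec x) j) = true := by
  have key : ∀ j, pos j = m →
      pre (dec fun i => (pre x m).getD i false) j = pre (dec x) j := by
    intro j hj
    rw [pre_eq_iff]
    intro i hi
    refine dec_congr fun l hl => pre_getD x ?_
    have h1 : w (i + 1) ≤ w j := w_mono.monotone hi
    have h2 := w_le_pos j
    omega
  have h1 : (∃ j, pos j = (pre x m).length ∧
      σ (pre (dec fun i => (pre x m).getD i false) j) = true) ↔
      ∃ j, pos j = m ∧ σ (pre (dec x) j) = true := by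
    rw [pre_length]
    constructor
    · rintro ⟨j, hj, h⟩
      exact ⟨j, hj, by rwa [← key j hj]⟩
    · rintro ⟨j, hj, h⟩
      exact ⟨j, hj, by rwa [key j hj]⟩
  unfold cst
  rw [← h1]
  split_ifs with hc
  · exact iff_of_true (by simp) hc
  · exact iff_of_false (by simp) hc

theorem winsP_AA {r : ℕ} (hr : r < 2) {B : Set (ℕ → Bool)} (h : WinsP r B) :
    WinsP r (AA B) := by
  obtain ⟨σ, hσ⟩ := h
  refine ⟨cst r σ, fun x hx => ?_⟩
  have hex : ∀ m, m % 2 = r → (x m ≠ dflt r ↔ ∃ j, pos j = m ∧ σ (pre (dec x) j) = true) := by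
    intro m hm
    rw [hx m hm, cst_pre]
  have hlike : Like r x 1 r := by
    refine like_of_pos fun m hm hne => ?_
    rw [Nat.mod_eq_of_lt hr] at hm
    obtain ⟨j, hj, -⟩ := (hex m hm).mp hne
    exact ⟨j, hj⟩
  have hdec : Con r σ (dec x) := by
    intro j hj
    have hd : dflt j = dflt r := by
      rw [← dflt_mod j, hj]
    rw [Bool.eq_iff_iff, dec_iff, hd]
    constructor
    · rintro ⟨m, h1, h2, h3, h4⟩
      obtain ⟨j', hj', h5⟩ := (hex m (h3.trans hj)).mp h4
      have : j' = j := pos_unique (by rw [hj']; exact h1) (by rw [hj']; exact h2)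
      rwa [this] at h5
    · intro h1
      refine ⟨pos j, w_le_pos j, pos_lt j, pos_mod j, ?_⟩
      exact (hex (pos j) (by rw [pos_mod, hj])).mpr ⟨j, rfl, h1⟩
  refine win_of hr (rp_of_like hr hlike) fun h' => ?_
  rw [F_eq_dec hr hlike h']
  exact hσ _ hdec

/-! ### from the coded game to the game -/

open Classical in
/-- the moves of the simulated opponent of player `r` -/
noncomputable def opp (r : ℕ) (b : ℕ → Bool) (m : ℕ) : Bool :=
  if ∃ j, pos j = m ∧ b j = true then !(dflt (1 - r)) else dflt (1 - r)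

open Classical in
theorem opp_ne (r : ℕ) (b : ℕ → Bool) (m : ℕ) :
    opp r b m ≠ dflt (1 - r) ↔ ∃ j, pos j = m ∧ b j = true := by
  unfold opp
  split_ifs with hc
  · exact iff_of_true (by simp) hc
  · exact iff_of_false (by simp) hc

theorem exists_sim (r : ℕ) (s : List Bool → Bool) (b : ℕ → Bool) :
    ∃ x : ℕ → Bool, ∀ m, x m = if m % 2 = r then s (pre x m) else opp r b m := by
  obtain ⟨x, -, hx⟩ := exists_run
    (fun p => if p.length % 2 = r then s p else opp r b p.length) []
  refine ⟨x, fun m => ?_⟩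
  have := hx m (Nat.zero_le _)
  simpa only [pre_length] using this

theorem winsP_of_AA {r : ℕ} (hr : r < 2) {B : Set (ℕ → Bool)} (h : WinsP r (AA B)) :
    WinsP r B := by
  obtain ⟨s, hs⟩ := h
  choose X hX using exists_sim r s
  have hloc : ∀ (b b' : ℕ → Bool) (j : ℕ), j % 2 = r → (∀ i < j, b i = b' i) →
      ∀ m < w (j + 1), X b m = X b' m := by
    intro b b' j hj hb m
    induction m using Nat.strong_induction_on with
    | _ m ih =>
      intro hm
      rw [hX b m, hX b' m]
      by_cases hmr : m % 2 = r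
      · rw [if_pos hmr, if_pos hmr]
        congr 1
        rw [pre_eq_iff]
        exact fun i hi => ih i hi (by omega)
      · rw [if_neg hmr, if_neg hmr]
        have h1 : opp r b m ≠ dflt (1 - r) ↔ opp r b' m ≠ dflt (1 - r) := by
          rw [opp_ne, opp_ne]
          refine exists_congr fun i => and_congr_right fun hi => ?_
          have h2 : w i < w (j + 1) := (w_le_pos i).trans_lt (by rw [hi]; exact hm)
          have h3 : i < j + 1 := w_mono.lt_iff_lt.mp h2
          have h4 : i ≠ j := by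
            intro hij
            apply hmr
            rw [← hi, pos_mod, hij, hj]
          rw [hb i (by omega)]
        revert h1
        cases opp r b m <;> cases opp r b' m <;> cases dflt (1 - r) <;> simp
  refine ⟨fun l => dec (X fun i => l.getD i false) l.length, fun b hb => ?_⟩
  have hdec : dec (X b) = b := by
    funext j
    by_cases hj : j % 2 = r
    · rw [hb j hj]
      simp only [pre_length]
      refine dec_congr fun i hi => ?_
      exact hloc _ _ j hj (fun i hi => (pre_getD b hi).symm) i hi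
    · have hj' : j % 2 = 1 - r := by omega
      have hd : dflt j = dflt (1 - r) := by
        rw [← dflt_mod j, hj']
      rw [Bool.eq_iff_iff, dec_iff, hd]
      constructor
      · rintro ⟨m, h1, h2, h3, h4⟩
        rw [hX b m, if_neg (by omega), opp_ne] at h4
        obtain ⟨i, hi, h5⟩ := h4
        have : i = j := pos_unique (by rw [hi]; exact h1) (by rw [hi]; exact h2)
        rwa [this] at h5
      · intro h1
        refine ⟨pos j, w_le_pos j, pos_lt j, pos_mod j, ?_⟩
        rw [hX b (pos j), if_neg (by rw [pos_mod]; omega), opp_ne]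
        exact ⟨j, rfl, h1⟩
  have hlike : Like (1 - r) (X b) 1 (1 - r) := by
    refine like_of_pos fun m hm hne => ?_
    rw [hX b m, if_neg (by omega), opp_ne] at hne
    obtain ⟨j, hj, -⟩ := hne
    exact ⟨j, hj⟩
  have hrp := rp_of_like (by omega) hlike
  have hcon : Con r s (X b) := fun l hl => by
    rw [hX b l, if_pos hl]
  obtain ⟨h1, h2⟩ := win_other hr hrp (hs _ hcon)
  have h3 : X b ∈ RP (1 - (1 - r)) := by
    have : 1 - (1 - r) = r := by omega
    rwa [this]
  rw [F_eq_dec (by omega) hlike h3, hdec] at h2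
  exact h2

theorem winsP_AA_iff {r : ℕ} (hr : r < 2) (B : Set (ℕ → Bool)) :
    WinsP r (AA B) ↔ WinsP r B := ⟨winsP_of_AA hr, winsP_AA hr⟩

end Pool.Agent.Helper56.TDV
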