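import Pool.Agent.Helper56_TDV.Perm
import Pool.Agent.Helper56_Tail.Meas
import Pool.Agent.Helper56_Tail.Game

/-!
# Invariant decoding of a real
-/

set_option autoImplicit false

namespace Pool.Agent.Helper56.TDV

open Pool.Agent.TDV Pool.Agent.Helper56Tail

/-- the beginning of the window number `j` -/
def w (j : ℕ) : ℕ := 2 * j * j

/-- the default value of player `r` -/
def dflt (r : ℕ) : Bool := decide (r % 2 = 1)

/-- `m` is in a window whose number has the parity `r`, at distance at least `K` from its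
complement -/
def Deep (r K m : ℕ) : Prop := ∃ j, j % 2 = r % 2 ∧ w j + K ≤ m ∧ m + K < w (j + 1)

/-- the exceptional points of the residue class of `i` modulo `2 ^ N` are deep in windows of
parity `r` -/
def Like (r : ℕ) (x : ℕ → Bool) (N i : ℕ) : Prop :=
  ∀ K, ∃ M, ∀ m, M ≤ m → m % 2 ^ N = i % 2 ^ N → x m ≠ dflt r → Deep r K m

/-- some residue class containing `m` is of the kind `r` -/
def Lk (r : ℕ) (x : ℕ → Bool) (m : ℕ) : Prop := ∃ N, Like r x N m

open Classical in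
/-- the number of classes of the kind `r` -/
noncomputable def cnt (r : ℕ) (x : ℕ → Bool) (N : ℕ) : ℕ :=
  ((Finset.range (2 ^ N)).filter fun i => Like r x N i).card

/-- at least half of the classes are of the kind `r` -/
def RP (r : ℕ) : Set (ℕ → Bool) := {x | ∃ N, 2 ^ N ≤ 2 * cnt r x N}

open Classical in
/-- the decoded real -/
noncomputable def F (x : ℕ → Bool) : ℕ → Bool :=
  fun j => decide (∃ m, w j ≤ m ∧ m < w (j + 1) ∧ Lk (j % 2) x m ∧ x m ≠ dflt j)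

open Classical in
theorem F_iff (x : ℕ → Bool) (j : ℕ) : F x j = true ↔
    ∃ m, w j ≤ m ∧ m < w (j + 1) ∧ Lk (j % 2) x m ∧ x m ≠ dflt j := by
  unfold F
  rw [decide_eq_true_iff]

/-- the coded set -/
def AA (B : Set (ℕ → Bool)) : Set (ℕ → Bool) := (RP 0 \ RP 1) ∪ (RP 0 ∩ RP 1 ∩ F ⁻¹' B)

/-! ### windows -/

theorem w_lt (j : ℕ) : w j < w (j + 1) := by
  unfold w
  nlinarith

theorem w_mono : StrictMono w := strictMono_nat_of_lt_succ w_lt

theorem le_w (j : ℕ) : j ≤ w j := by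
  unfold w
  rcases Nat.eq_zero_or_pos j with h | h
  · rw [h]
  · nlinarith

theorem win_unique {j j' m : ℕ} (h1 : w j ≤ m) (h2 : m < w (j + 1)) (h3 : w j' ≤ m)
    (h4 : m < w (j' + 1)) : j = j' := by
  have h5 : j < j' + 1 := w_mono.lt_iff_lt.mp (h1.trans_lt h4)
  have h6 : j' < j + 1 := w_mono.lt_iff_lt.mp (h3.trans_lt h2)
  omega

theorem dflt_mod (r : ℕ) : dflt (r % 2) = dflt r := by
  unfold dflt
  rw [Nat.mod_mod]

/-! ### classes -/

theorem Like.congr {r : ℕ} {x : ℕ → Bool} {N i i' : ℕ} (h : i % 2 ^ N = i' % 2 ^ N)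
    (hi : Like r x N i) : Like r x N i' := by
  intro K
  obtain ⟨M, hM⟩ := hi K
  exact ⟨M, fun m h1 h2 h3 => hM m h1 (h2.trans h.symm) h3⟩

theorem like_iff {r : ℕ} {x : ℕ → Bool} {N i i' : ℕ} (h : i % 2 ^ N = i' % 2 ^ N) :
    Like r x N i ↔ Like r x N i' := ⟨Like.congr h, Like.congr h.symm⟩

theorem Like.up {r : ℕ} {x : ℕ → Bool} {N N' i : ℕ} (hN : N ≤ N') (hi : Like r x N i) :
    Like r x N' i := by
  intro K
  obtain ⟨M, hM⟩ := hi K
  refine ⟨M, fun m h1 h2 h3 => hM m h1 ?_ h3⟩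
  have hdvd : 2 ^ N ∣ 2 ^ N' := pow_dvd_pow 2 hN
  rw [← Nat.mod_mod_of_dvd m hdvd, ← Nat.mod_mod_of_dvd i hdvd, h2]

theorem not_both {x : ℕ → Bool} {N i : ℕ} (h0 : Like 0 x N i) (h1 : Like 1 x N i) : False := by
  obtain ⟨M, hM⟩ := h0 (2 ^ N)
  obtain ⟨M', hM'⟩ := h1 (2 ^ N)
  have hpos : 0 < 2 ^ N := by positivity
  set j := max M M' with hj
  -- a point of the class near the beginning of the window `j`
  obtain ⟨m, hm1, hm2, hm3⟩ : ∃ m, w j ≤ m ∧ m < w j + 2 ^ N ∧ m % 2 ^ N = i % 2 ^ N := by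
    have h2 := Nat.mod_lt i hpos
    have h3 := Nat.mod_lt (w j) hpos
    have h4 := Nat.div_add_mod (w j) (2 ^ N)
    rcases le_or_gt (w j % 2 ^ N) (i % 2 ^ N) with h | h
    · refine ⟨2 ^ N * (w j / 2 ^ N) + i % 2 ^ N, by omega, by omega, ?_⟩
      rw [Nat.mul_add_mod, Nat.mod_mod]
    · refine ⟨2 ^ N * (w j / 2 ^ N + 1) + i % 2 ^ N, by rw [mul_add]; omega,
        by rw [mul_add]; omega, ?_⟩
      rw [Nat.mul_add_mod, Nat.mod_mod]
  have hjm : j ≤ m := (le_w j).trans hm1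
  have key : ∀ r, Deep r (2 ^ N) m → False := by
    rintro r ⟨j', -, h5, h6⟩
    have h7 : w j' < w j := by omega
    have h8 : j' < j := w_mono.lt_iff_lt.mp h7
    have h9 : w (j' + 1) ≤ w j := w_mono.monotone h8
    omega
  by_cases hx : x m = dflt 0
  · have hx' : x m ≠ dflt 1 := by
      rw [hx]
      simp [dflt]
    exact key 1 (hM' m ((le_max_right _ _).trans hjm) hm3 hx')
  · exact key 0 (hM m ((le_max_left _ _).trans hjm) hm3 hx)

theorem not_both' {r : ℕ} (hr : r < 2) {x : ℕ → Bool} {N i : ℕ} (h0 : Like r x N i)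
    (h1 : Like (1 - r) x N i) : False := by
  interval_cases r
  · exact not_both h0 h1
  · exact not_both h1 h0

open Classical in
theorem cnt_step (r : ℕ) (x : ℕ → Bool) (N : ℕ) : 2 * cnt r x N ≤ cnt r x (N + 1) := by
  unfold cnt
  set S := (Finset.range (2 ^ N)).filter fun i => Like r x N i with hS
  have hpow : 2 ^ (N + 1) = 2 ^ N + 2 ^ N := by ring
  have h1 : S ∪ S.image (fun i => i + 2 ^ N) ⊆
      (Finset.range (2 ^ (N + 1))).filter fun i => Like r x (N + 1) i := by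
    intro i hi
    rw [Finset.mem_union] at hi
    rw [Finset.mem_filter, Finset.mem_range]
    rcases hi with hi | hi
    · rw [hS, Finset.mem_filter, Finset.mem_range] at hi
      exact ⟨by omega, hi.2.up (Nat.le_succ N)⟩
    · rw [Finset.mem_image] at hi
      obtain ⟨i', hi', rfl⟩ := hi
      rw [hS, Finset.mem_filter, Finset.mem_range] at hi'
      refine ⟨by omega, (hi'.2.congr ?_).up (Nat.le_succ N)⟩
      rw [Nat.add_mod_right]
  have h2 : Disjoint S (S.image (fun i => i + 2 ^ N)) := by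
    rw [Finset.disjoint_left]
    intro i hi hi'
    rw [hS, Finset.mem_filter, Finset.mem_range] at hi
    rw [Finset.mem_image] at hi'
    obtain ⟨i', -, h⟩ := hi'
    omega
  have h3 := Finset.card_le_card h1
  rw [Finset.card_union_of_disjoint h2, Finset.card_image_of_injective _
    (add_left_injective (2 ^ N))] at h3
  omega

theorem half_up {r : ℕ} {x : ℕ → Bool} {N N' : ℕ} (hN : N ≤ N') (h : 2 ^ N ≤ 2 * cnt r x N) :
    2 ^ N' ≤ 2 * cnt r x N' := by
  induction hN with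
  | refl => exact h
  | @step m _ ih =>
    have h1 := cnt_step r x m
    have h2 : 2 ^ (m + 1) = 2 * 2 ^ m := by ring
    rw [Nat.succ_eq_add_one]
    omega

open Classical in
theorem all_like {x : ℕ → Bool} {N : ℕ} (h0 : 2 ^ N ≤ 2 * cnt 0 x N)
    (h1 : 2 ^ N ≤ 2 * cnt 1 x N) (i : ℕ) : Like 0 x N i ∨ Like 1 x N i := by
  have hpos : 0 < 2 ^ N := by positivity
  unfold cnt at h0 h1
  set S0 := (Finset.range (2 ^ N)).filter fun i => Like 0 x N i with hS0
  set S1 := (Finset.range (2 ^ N)).filter fun i => Like 1 x N i with hS1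
  have hd : Disjoint S0 S1 := by
    rw [Finset.disjoint_left]
    intro i hi hi'
    rw [hS0, Finset.mem_filter] at hi
    rw [hS1, Finset.mem_filter] at hi'
    exact not_both hi.2 hi'.2
  have hsub : S0 ∪ S1 ⊆ Finset.range (2 ^ N) :=
    Finset.union_subset (Finset.filter_subset _ _) (Finset.filter_subset _ _)
  have hcard : (Finset.range (2 ^ N)).card ≤ (S0 ∪ S1).card := by
    rw [Finset.card_union_of_disjoint hd, Finset.card_range]
    omega
  have heq := Finset.eq_of_subset_of_card_le hsub hcard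
  have hi : i % 2 ^ N ∈ S0 ∪ S1 := by
    rw [heq, Finset.mem_range]
    exact Nat.mod_lt _ hpos
  rw [Finset.mem_union, hS0, hS1, Finset.mem_filter, Finset.mem_filter] at hi
  have hc : i % 2 ^ N % 2 ^ N = i % 2 ^ N := Nat.mod_mod _ _
  rcases hi with hi | hi
  · exact Or.inl (hi.2.congr hc)
  · exact Or.inr (hi.2.congr hc)

theorem common {x : ℕ → Bool} (h0 : x ∈ RP 0) (h1 : x ∈ RP 1) (N : ℕ) :
    ∃ N', N ≤ N' ∧ 2 ^ N' ≤ 2 * cnt 0 x N' ∧ 2 ^ N' ≤ 2 * cnt 1 x N' := by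
  obtain ⟨N0, hN0⟩ := h0
  obtain ⟨N1, hN1⟩ := h1
  refine ⟨max N (max N0 N1), le_max_left _ _, half_up ?_ hN0, half_up ?_ hN1⟩
  · exact (le_max_left _ _).trans (le_max_right _ _)
  · exact (le_max_right _ _).trans (le_max_right _ _)

theorem lk_iff {x : ℕ → Bool} {N : ℕ} (h0 : 2 ^ N ≤ 2 * cnt 0 x N)
    (h1 : 2 ^ N ≤ 2 * cnt 1 x N) {r : ℕ} (hr : r < 2) (m : ℕ) : Lk r x m ↔ Like r x N m := by
  refine ⟨fun ⟨N', hN'⟩ => ?_, fun h => ⟨N, h⟩⟩
  by_contra hno
  have h2 : Like (1 - r) x N m := by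
    have := all_like h0 h1 m
    interval_cases r
    · rcases this with h | h
      · exact absurd h hno
      · exact h
    · rcases this with h | h
      · exact h
      · exact absurd h hno
  exact not_both' hr (hN'.up (le_max_right N N')) (h2.up (le_max_left N N'))

/-! ### invariance -/

theorem like_of_comp {π : Equiv.Perm ℕ} {N0 N : ℕ} (hπ : Loc π N0) (hN : N0 ≤ N) {r : ℕ}
    {x : ℕ → Bool} {m : ℕ} (h : Like r x N (π m)) : Like r (fun n => x (π n)) N m := by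
  intro K
  obtain ⟨M, hM⟩ := h (K + 2 ^ N0)
  refine ⟨M + 2 ^ N0, fun m' h1 h2 h3 => ?_⟩
  have h4 := hπ.near m'
  obtain ⟨j, hj, h5, h6⟩ := hM (π m') (by omega) (((hπ.up hN).2 _ _).mp h2) h3
  exact ⟨j, hj, by omega, by omega⟩

theorem like_comp {π : Equiv.Perm ℕ} {N0 N : ℕ} (hπ : Loc π N0) (hN : N0 ≤ N) {r : ℕ}
    {x : ℕ → Bool} {m : ℕ} : Like r (fun n => x (π n)) N m ↔ Like r x N (π m) := by
  refine ⟨fun h => ?_, like_of_comp hπ hN⟩
  have h1 := like_of_comp (r := r) (x := fun n => x (π n)) (m := π m) hπ.symm hN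
    (by rwa [Equiv.symm_apply_apply])
  simpa only [Equiv.apply_symm_apply] using h1

theorem lk_comp {π : Equiv.Perm ℕ} {N0 : ℕ} (hπ : Loc π N0) {r : ℕ} {x : ℕ → Bool} {m : ℕ} :
    Lk r (fun n => x (π n)) m ↔ Lk r x (π m) := by
  constructor
  · rintro ⟨N, hN⟩
    exact ⟨max N N0, (like_comp hπ (le_max_right _ _)).mp (hN.up (le_max_left _ _))⟩
  · rintro ⟨N, hN⟩
    exact ⟨max N N0, (like_comp hπ (le_max_right _ _)).mpr (hN.up (le_max_left _ _))⟩

open Classical in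
theorem cnt_comp_le {π : Equiv.Perm ℕ} {N0 N : ℕ} (hπ : Loc π N0) (hN : N0 ≤ N) (r : ℕ)
    (x : ℕ → Bool) : cnt r x N ≤ cnt r (fun n => x (π n)) N := by
  unfold cnt
  refine Finset.card_le_card_of_injOn (fun i => π.symm i) ?_ ?_
  · intro i hi
    rw [Finset.mem_coe, Finset.mem_filter, Finset.mem_range] at hi ⊢
    refine ⟨(hπ.symm.up hN).lt hi.1, (like_comp hπ hN).mpr ?_⟩
    rw [Equiv.apply_symm_apply]
    exact hi.2
  · exact π.symm.injective.injOn

theorem rp_comp_of {π : Equiv.Perm ℕ} {N0 : ℕ} (hπ : Loc π N0) {r : ℕ} {x : ℕ → Bool}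
    (h : x ∈ RP r) : (fun n => x (π n)) ∈ RP r := by
  obtain ⟨N, hN⟩ := h
  refine ⟨max N N0, (half_up (le_max_left N N0) hN).trans ?_⟩
  exact Nat.mul_le_mul_left 2 (cnt_comp_le hπ (le_max_right _ _) r x)

theorem rp_comp {π : Equiv.Perm ℕ} {N0 : ℕ} (hπ : Loc π N0) {r : ℕ} {x : ℕ → Bool} :
    (fun n => x (π n)) ∈ RP r ↔ x ∈ RP r := by
  refine ⟨fun h => ?_, rp_comp_of hπ⟩
  have h1 := rp_comp_of hπ.symm h
  simpa only [Equiv.apply_symm_apply] using h1

/-- the exceptional points of the classes of the kind `r` are uniformly deep -/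
theorem uniform {x : ℕ → Bool} (h0 : x ∈ RP 0) (h1 : x ∈ RP 1) (r : ℕ) (hr : r < 2) (K : ℕ) :
    ∃ M, ∀ m, M ≤ m → Lk r x m → x m ≠ dflt r → Deep r K m := by
  obtain ⟨N, -, hN0, hN1⟩ := common h0 h1 0
  have hpos : 0 < 2 ^ N := by positivity
  have h2 : ∀ i, ∃ M, Like r x N i → ∀ m, M ≤ m → m % 2 ^ N = i % 2 ^ N → x m ≠ dflt r →
      Deep r K m := by
    intro i
    by_cases hi : Like r x N i
    · obtain ⟨M, hM⟩ := hi K
      exact ⟨M, fun _ => hM⟩
    · exact ⟨0, fun h => absurd h hi⟩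
  choose M hM using h2
  refine ⟨(Finset.range (2 ^ N)).sup M, fun m hm hl hx => ?_⟩
  have h3 : M (m % 2 ^ N) ≤ m :=
    (Finset.le_sup (f := M) (Finset.mem_range.mpr (Nat.mod_lt _ hpos))).trans hm
  have hc : m % 2 ^ N % 2 ^ N = m % 2 ^ N := Nat.mod_mod _ _
  have h4 := (lk_iff hN0 hN1 hr m).mp hl
  exact hM (m % 2 ^ N) (h4.congr hc.symm) m h3 hc.symm hx

theorem F_comp_le {π : Equiv.Perm ℕ} {N0 : ℕ} (hπ : Loc π N0) {x : ℕ → Bool}
    (h0 : x ∈ RP 0) (h1 : x ∈ RP 1) :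
    ∃ J, ∀ j, J ≤ j → F (fun n => x (π n)) j = true → F x j = true := by
  set y : ℕ → Bool := fun n => x (π n) with hy
  have hy0 : y ∈ RP 0 := (rp_comp hπ).mpr h0
  have hy1 : y ∈ RP 1 := (rp_comp hπ).mpr h1
  obtain ⟨M, hM⟩ := uniform hy0 hy1 0 (by norm_num) (2 ^ N0)
  obtain ⟨M', hM'⟩ := uniform hy0 hy1 1 (by norm_num) (2 ^ N0)
  refine ⟨max M M', fun j hj hF => ?_⟩
  rw [F_iff] at hF ⊢
  obtain ⟨m, h2, h3, h4, h5⟩ := hF
  have hpos : 0 < 2 ^ N0 := by positivity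
  have hjm : j ≤ m := (le_w j).trans h2
  have hdeep : Deep (j % 2) (2 ^ N0) m := by
    rw [← dflt_mod] at h5
    rcases Nat.mod_two_eq_zero_or_one j with h | h
    · rw [h] at h4 h5 ⊢
      exact hM m ((le_max_left _ _).trans (hj.trans hjm)) h4 h5
    · rw [h] at h4 h5 ⊢
      exact hM' m ((le_max_right _ _).trans (hj.trans hjm)) h4 h5
  obtain ⟨j', -, h6, h7⟩ := hdeep
  have hjj : j = j' := win_unique h2 h3 (by omega) (by omega)
  subst hjj
  have h8 := hπ.near m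
  exact ⟨π m, by omega, by omega, (lk_comp hπ).mp h4, h5⟩

theorem F_comp {π : Equiv.Perm ℕ} {N0 : ℕ} (hπ : Loc π N0) {x : ℕ → Bool}
    (h0 : x ∈ RP 0) (h1 : x ∈ RP 1) :
    ∃ J, ∀ j, J ≤ j → F (fun n => x (π n)) j = F x j := by
  obtain ⟨J, hJ⟩ := F_comp_le hπ h0 h1
  obtain ⟨J', hJ'⟩ := F_comp_le hπ.symm ((rp_comp hπ).mpr h0) ((rp_comp hπ).mpr h1)
  simp only [Equiv.apply_symm_apply] at hJ'
  refine ⟨max J J', fun j hj => ?_⟩
  have h2 := hJ j ((le_max_left _ _).trans hj)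
  have h3 := hJ' j ((le_max_right _ _).trans hj)
  rw [Bool.eq_iff_iff]
  exact ⟨h2, h3⟩

theorem AA_comp_of {π : Equiv.Perm ℕ} {N0 : ℕ} (hπ : Loc π N0) {B : Set (ℕ → Bool)}
    (hB : TailSet B) {x : ℕ → Bool} (h : x ∈ AA B) : (fun n => x (π n)) ∈ AA B := by
  rcases h with ⟨h0, h1⟩ | ⟨⟨h0, h1⟩, h2⟩
  · exact Or.inl ⟨(rp_comp hπ).mpr h0, fun h => h1 ((rp_comp hπ).mp h)⟩
  · refine Or.inr ⟨⟨(rp_comp hπ).mpr h0, (rp_comp hπ).mpr h1⟩, ?_⟩
    obtain ⟨J, hJ⟩ := F_comp hπ h0 h1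
    exact hB (F x) _ h2 ⟨J, fun n hn => (hJ n hn).symm⟩

theorem v1inv_AA {B : Set (ℕ → Bool)} (hB : TailSet B) : V1Inv (AA B) := by
  intro π hπ x
  obtain ⟨N, hN⟩ := exists_loc hπ
  refine ⟨AA_comp_of hN hB, fun h => ?_⟩
  have h1 := AA_comp_of hN.symm hB h
  simpa only [Equiv.apply_symm_apply] using h1

end Pool.Agent.Helper56.TDV
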