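import Pool.Agent.TDV.Defs

/-!
# Permutations of residue classes modulo powers of two
-/

set_option autoImplicit false

namespace Pool.Agent.Helper56.TDV

open Pool.Agent.TDV

/-- `π` preserves the blocks of length `2 ^ N` and permutes the residue classes modulo `2 ^ N` -/
def Loc (π : Equiv.Perm ℕ) (N : ℕ) : Prop :=
  (∀ m, π m / 2 ^ N = m / 2 ^ N) ∧
    ∀ m m', m % 2 ^ N = m' % 2 ^ N ↔ π m % 2 ^ N = π m' % 2 ^ N

theorem Loc.symm {π : Equiv.Perm ℕ} {N : ℕ} (h : Loc π N) : Loc π.symm N := by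
  refine ⟨fun m => ?_, fun m m' => ?_⟩
  · have := h.1 (π.symm m)
    rw [Equiv.apply_symm_apply] at this
    exact this.symm
  · have := h.2 (π.symm m) (π.symm m')
    rw [Equiv.apply_symm_apply, Equiv.apply_symm_apply] at this
    exact this.symm

theorem exists_loc {π : Equiv.Perm ℕ} (h : IsV1 π) : ∃ N, Loc π N := by
  obtain ⟨N, hN⟩ := h
  have hpos : 0 < 2 ^ N := by positivity
  choose! f hf using hN
  have hπ : ∀ m, π m = 2 ^ N * (m / 2 ^ N) + f (m % 2 ^ N) := by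
    intro m
    have h1 := hf (m % 2 ^ N) (Nat.mod_lt _ hpos) (m / 2 ^ N)
    rwa [Nat.div_add_mod] at h1
  have hsub : Finset.range (2 ^ N) ⊆ (Finset.range (2 ^ N)).image f := by
    intro t ht
    rw [Finset.mem_range] at ht
    have h1 := hπ (π.symm t)
    rw [Equiv.apply_symm_apply] at h1
    have h2 : π.symm t / 2 ^ N = 0 := by
      by_contra h0
      have h3 : 1 ≤ π.symm t / 2 ^ N := Nat.one_le_iff_ne_zero.mpr h0
      have h4 : 2 ^ N * 1 ≤ 2 ^ N * (π.symm t / 2 ^ N) := Nat.mul_le_mul_left _ h3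
      omega
    rw [h2, mul_zero, zero_add] at h1
    rw [Finset.mem_image]
    exact ⟨π.symm t % 2 ^ N, Finset.mem_range.mpr (Nat.mod_lt _ hpos), h1.symm⟩
  have hcard : ((Finset.range (2 ^ N)).image f).card ≤ (Finset.range (2 ^ N)).card :=
    Finset.card_image_le
  have heq := Finset.eq_of_subset_of_card_le hsub hcard
  have hinj : Set.InjOn f (Finset.range (2 ^ N)) := by
    apply Finset.injOn_of_card_image_eq
    rw [← heq]
  have hlt : ∀ r, r < 2 ^ N → f r < 2 ^ N := by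
    intro r hr
    have : f r ∈ (Finset.range (2 ^ N)).image f :=
      Finset.mem_image_of_mem _ (Finset.mem_range.mpr hr)
    rw [← heq] at this
    exact Finset.mem_range.mp this
  have hmod : ∀ m, π m % 2 ^ N = f (m % 2 ^ N) := by
    intro m
    rw [hπ, Nat.mul_add_mod, Nat.mod_eq_of_lt (hlt _ (Nat.mod_lt _ hpos))]
  refine ⟨N, fun m => ?_, fun m m' => ?_⟩
  · rw [hπ, Nat.mul_add_div hpos, Nat.div_eq_of_lt (hlt _ (Nat.mod_lt _ hpos)), add_zero]
  · rw [hmod, hmod]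
    constructor
    · intro h
      rw [h]
    · intro h
      exact hinj (Finset.mem_coe.mpr (Finset.mem_range.mpr (Nat.mod_lt _ hpos)))
        (Finset.mem_coe.mpr (Finset.mem_range.mpr (Nat.mod_lt _ hpos))) h

theorem Loc.add {π : Equiv.Perm ℕ} {N : ℕ} (h : Loc π N) (m : ℕ) :
    π m + m % 2 ^ N = m + π m % 2 ^ N := by
  have h1 := Nat.div_add_mod (π m) (2 ^ N)
  have h2 := Nat.div_add_mod m (2 ^ N)
  rw [h.1] at h1
  omega

theorem Loc.up {π : Equiv.Perm ℕ} {N N' : ℕ} (h : Loc π N) (hN : N ≤ N') : Loc π N' := by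
  have hdvd : 2 ^ N ∣ 2 ^ N' := pow_dvd_pow 2 hN
  have hdiv : ∀ m : ℕ, m / 2 ^ N' = m / 2 ^ N / 2 ^ (N' - N) := by
    intro m
    rw [Nat.div_div_eq_div_mul, ← pow_add, Nat.add_sub_cancel' hN]
  have key : ∀ {σ : Equiv.Perm ℕ}, Loc σ N → ∀ m m', m % 2 ^ N' = m' % 2 ^ N' →
      σ m % 2 ^ N' = σ m' % 2 ^ N' := by
    intro σ hσ m m' hm
    have h1 : m % 2 ^ N = m' % 2 ^ N := by
      rw [← Nat.mod_mod_of_dvd m hdvd, ← Nat.mod_mod_of_dvd m' hdvd, hm]
    have h2 := (hσ.2 m m').mp h1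
    have h3 := hσ.add m
    have h4 := hσ.add m'
    rw [← h1, ← h2] at h4
    have h5 : σ m + m % 2 ^ N ≡ σ m' + m % 2 ^ N [MOD 2 ^ N'] := by
      rw [h3, h4]
      exact Nat.ModEq.add_right _ hm
    exact Nat.ModEq.add_right_cancel' _ h5
  refine ⟨fun m => ?_, fun m m' => ⟨key h m m', fun hm => ?_⟩⟩
  · rw [hdiv, hdiv, h.1]
  · have := key h.symm (π m) (π m') hm
    rwa [Equiv.symm_apply_apply, Equiv.symm_apply_apply] at this

theorem Loc.lt {π : Equiv.Perm ℕ} {N : ℕ} (h : Loc π N) {m : ℕ} (hm : m < 2 ^ N) :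
    π m < 2 ^ N := by
  have h1 := h.1 m
  rw [Nat.div_eq_of_lt hm] at h1
  exact (Nat.div_eq_zero_iff_lt (by positivity)).mp h1

theorem Loc.near {π : Equiv.Perm ℕ} {N : ℕ} (h : Loc π N) (m : ℕ) :
    π m < m + 2 ^ N ∧ m < π m + 2 ^ N := by
  have h1 := h.add m
  have h2 : m % 2 ^ N < 2 ^ N := Nat.mod_lt _ (by positivity)
  have h3 : π m % 2 ^ N < 2 ^ N := Nat.mod_lt _ (by positivity)
  omega

end Pool.Agent.Helper56.TDV
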