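import Pool.Agent.Helper56_TDV.Games
import Pool.Agent.Helper25_TD.Defs

/-!
# Every game is equivalent to a game with a payoff set invariant under the permutations of the
# residue classes modulo powers of two
-/

set_option autoImplicit false

namespace Pool.Agent.Helper56.TDV

open Pool.Agent.TDV Pool.Agent.Helper56Tail

theorem meas_bit (m : ℕ) (v : Bool) : MeasurableSet {x : ℕ → Bool | x m ≠ v} :=
  (measurable_pi_apply (X := fun _ : ℕ => Bool) m) (measurableSet_singleton v).compl

theorem meas_like (r N i : ℕ) : MeasurableSet {x : ℕ → Bool | Like r x N i} := by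
  have e : {x : ℕ → Bool | Like r x N i} = ⋂ K : ℕ, ⋃ M : ℕ, ⋂ m : ℕ, ⋂ _ : M ≤ m,
      ⋂ _ : m % 2 ^ N = i % 2 ^ N, {x : ℕ → Bool | x m ≠ dflt r → Deep r K m} := by
    ext x
    simp only [Like, Set.mem_ofPred_eq, Set.mem_iInter, Set.mem_iUnion]
  rw [e]
  refine MeasurableSet.iInter fun K => MeasurableSet.iUnion fun M => MeasurableSet.iInter fun m =>
    MeasurableSet.iInter fun _ => MeasurableSet.iInter fun _ => ?_
  by_cases hd : Deep r K m
  · have e2 : {x : ℕ → Bool | x m ≠ dflt r → Deep r K m} = Set.univ := by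
      ext x
      simp only [Set.mem_ofPred_eq, Set.mem_univ, iff_true]
      exact fun _ => hd
    rw [e2]
    exact MeasurableSet.univ
  · have e2 : {x : ℕ → Bool | x m ≠ dflt r → Deep r K m} = {x : ℕ → Bool | x m ≠ dflt r}ᶜ := by
      ext x
      simp only [Set.mem_ofPred_eq, Set.mem_compl_iff]
      exact ⟨fun h h' => hd (h h'), fun h h' => absurd h' h⟩
    rw [e2]
    exact (meas_bit m _).compl

theorem meas_lk (r m : ℕ) : MeasurableSet {x : ℕ → Bool | Lk r x m} := by
  have e : {x : ℕ → Bool | Lk r x m} = ⋃ N : ℕ, {x : ℕ → Bool | Like r x N m} := by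
    ext x
    simp only [Lk, Set.mem_ofPred_eq, Set.mem_iUnion]
  rw [e]
  exact MeasurableSet.iUnion fun N => meas_like r N m

open Classical in
theorem meas_cnt (r N : ℕ) : Measurable fun x : ℕ → Bool => cnt r x N := by
  have e : (fun x : ℕ → Bool => cnt r x N) =
      fun x => ∑ i ∈ Finset.range (2 ^ N), if Like r x N i then 1 else 0 := by
    funext x
    unfold cnt
    rw [Finset.card_filter]
  rw [e]
  exact Finset.measurable_sum _ fun i _ =>
    Measurable.ite (meas_like r N i) measurable_const measurable_const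

theorem meas_rp (r : ℕ) : MeasurableSet (RP r) := by
  have e : RP r = ⋃ N : ℕ, {x : ℕ → Bool | 2 ^ N ≤ 2 * cnt r x N} := by
    ext x
    simp only [RP, Set.mem_ofPred_eq, Set.mem_iUnion]
  rw [e]
  exact MeasurableSet.iUnion fun N =>
    measurableSet_le measurable_const ((meas_cnt r N).const_mul 2)

theorem meas_F : Measurable F := by
  refine measurable_pi_lambda _ fun j => ?_
  refine measurable_to_bool ?_
  have e : (fun x => F x j) ⁻¹' {true} = ⋃ m : ℕ, ⋃ _ : w j ≤ m, ⋃ _ : m < w (j + 1),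
      ({x : ℕ → Bool | Lk (j % 2) x m} ∩ {x | x m ≠ dflt j}) := by
    ext x
    simp only [Set.mem_preimage, Set.mem_singleton_iff, F_iff, Set.mem_iUnion, Set.mem_inter_iff,
      Set.mem_ofPred_eq, exists_prop]
  rw [e]
  exact MeasurableSet.iUnion fun m => MeasurableSet.iUnion fun _ => MeasurableSet.iUnion fun _ =>
    (meas_lk _ m).inter (meas_bit m _)

theorem winsI_same (A : Set (ℕ → Bool)) : Helper25TD.WinsI A ↔ Helper56Tail.WinsI A := Iff.rfl

theorem winsII_same (A : Set (ℕ → Bool)) : Helper25TD.WinsII A ↔ Helper56Tail.WinsII A := Iff.rfl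

/-- Every game can be coded, by Borel sets `P`, `Q` and a Borel function `D`, as a game with a
payoff set which is invariant under the permutations of the residue classes modulo powers of
two. -/
theorem v1_companion : ∃ (P Q : Set (ℕ → Bool)) (D : (ℕ → Bool) → (ℕ → Bool)),
    MeasurableSet P ∧ MeasurableSet Q ∧ Measurable D ∧ ∀ B : Set (ℕ → Bool),
      V1Inv (P ∪ (Q ∩ D ⁻¹' B)) ∧
      (Helper25TD.WinsI (P ∪ (Q ∩ D ⁻¹' B)) ↔ Helper25TD.WinsI B) ∧
      (Helper25TD.WinsII (P ∪ (Q ∩ D ⁻¹' B)) ↔ Helper25TD.WinsII B) := by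
  refine ⟨(RP 0 \ RP 1) ∪ (RP 0 ∩ RP 1 ∩ F ⁻¹' RR), RP 0 ∩ RP 1 ∩ F ⁻¹' SS,
    fun x => play (F x), ?_, ?_, measurable_play.comp meas_F, fun B => ?_⟩
  · exact ((meas_rp 0).diff (meas_rp 1)).union
      (((meas_rp 0).inter (meas_rp 1)).inter (meas_F measurable_RR))
  · exact ((meas_rp 0).inter (meas_rp 1)).inter (meas_F measurable_SS)
  · have e : (RP 0 \ RP 1) ∪ (RP 0 ∩ RP 1 ∩ F ⁻¹' RR) ∪
        (RP 0 ∩ RP 1 ∩ F ⁻¹' SS ∩ (fun x => play (F x)) ⁻¹' B) = AA (TT B) := by
      ext x
      unfold AA TT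
      simp only [Set.mem_union, Set.mem_inter_iff, Set.mem_sdiff, Set.mem_preimage]
      tauto
    rw [e]
    refine ⟨v1inv_AA (tailSet_TT B), ?_, ?_⟩
    · rw [winsI_same, winsI_same, winsI_iff, winsI_iff, winsP_AA_iff (by norm_num)]
      exact ⟨winsP_of_TT (by norm_num), winsP_TT (by norm_num)⟩
    · rw [winsII_same, winsII_same, winsII_iff, winsII_iff, winsP_AA_iff (by norm_num)]
      exact ⟨winsP_of_TT (by norm_num), winsP_TT (by norm_num)⟩

end Pool.Agent.Helper56.TDV
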